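import Pool.Agent.Helper12.MA.StD
import Pool.Agent.Helper12.MA.Lib

/-!
# Project MA, module TOA: `ae G a b` on the complement of `x, s, σ` is 3-connected
-/

set_option autoImplicit false

namespace Pool.Agent.Helper98.MA

open Pool.Agent.Helper12.MA
open Pool.Agent.Helper51.AJ (IsMinor Planar Apex ExMinor Con Tch)
open Pool.Agent.Helper12.NK (rst Kc add cnt Pcy IsFace Cof plus)

variable {V : Type}

private theorem con_mono_graph {G H : SimpleGraph V} (h : ∀ a b, G.Adj a b → H.Adj a b) {W : Set V}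
    (hc : Con G W) : Con H W := by
  unfold Pool.Agent.Helper51.AJ.Con at *
  refine SimpleGraph.Connected.mono ?_ hc
  intro a b hab
  exact h _ _ hab

private theorem split {H : SimpleGraph V} {W : Set V} (hne : W.Nonempty) (hc : ¬ Con H W) :
    ∃ K₁ K₂ : Set V, K₁.Nonempty ∧ K₂.Nonempty ∧ Disjoint K₁ K₂ ∧ K₁ ∪ K₂ = W ∧
      ∀ a ∈ K₁, ∀ b ∈ K₂, ¬ H.Adj a b := by
  classical
  obtain ⟨w, hw⟩ := hne
  set K₁ : Set V := {v | ∃ hv : v ∈ W, (H.induce W).Reachable ⟨w, hw⟩ ⟨v, hv⟩} with hK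
  have h1 : K₁ ⊆ W := fun v hv => hv.1
  refine ⟨K₁, W \ K₁, ⟨w, hw, SimpleGraph.Reachable.refl _⟩, ?_, Set.disjoint_sdiff_right,
    Set.union_sdiff_cancel h1, ?_⟩
  · by_contra hemp
    rw [Set.not_nonempty_iff_eq_empty] at hemp
    apply hc
    unfold Pool.Agent.Helper51.AJ.Con
    haveI : Nonempty W := ⟨⟨w, hw⟩⟩
    refine ⟨?_⟩
    intro u v
    have hu : u.1 ∈ K₁ := by
      by_contra h
      exact (Set.eq_empty_iff_forall_notMem.mp hemp u.1) ⟨u.2, h⟩
    have hv : v.1 ∈ K₁ := by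
      by_contra h
      exact (Set.eq_empty_iff_forall_notMem.mp hemp v.1) ⟨v.2, h⟩
    obtain ⟨_, hu⟩ := hu
    obtain ⟨_, hv⟩ := hv
    exact hu.symm.trans hv
  · rintro a ⟨ha, hra⟩ b ⟨hb, hnb⟩ hab
    apply hnb
    refine ⟨hb, hra.trans ?_⟩
    apply SimpleGraph.Adj.reachable
    exact hab

private theorem cross {H : SimpleGraph V} {W A B : Set V} (hc : Con H W) (hA : A.Nonempty)
    (hB : B.Nonempty) (hd : Disjoint A B) (hU : A ∪ B = W) : ∃ a ∈ A, ∃ b ∈ B, H.Adj a b := by
  by_contra hcon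
  push Not at hcon
  obtain ⟨a, ha⟩ := hA
  obtain ⟨b, hb⟩ := hB
  have haW : a ∈ W := hU ▸ Or.inl ha
  have hbW : b ∈ W := hU ▸ Or.inr hb
  unfold Pool.Agent.Helper51.AJ.Con at hc
  obtain ⟨p⟩ := hc.preconnected ⟨a, haW⟩ ⟨b, hbW⟩
  have key : ∀ (u v : W), (H.induce W).Walk u v → u.1 ∈ A → v.1 ∈ A := by
    intro u v q
    induction q with
    | nil => exact id
    | @cons u v' w' h q ih =>
      intro hu
      apply ih
      have hv' : v'.1 ∈ A ∪ B := hU ▸ v'.2
      rcases hv' with h' | h'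
      · exact h'
      · exact absurd h (hcon _ hu _ h')
  have := key _ _ p ha
  exact (Set.disjoint_left.mp hd) this hb

theorem hTOA : StFNB → StBAS → StSPB → StTOA := by
  intro hFNB hBAS hSPB V _ G s x y σ a b hL hS
  classical
  have hbh := hL.bh
  obtain ⟨hys, hyσ, hya, hyb, hsσ, hsa, hsb, hσa, hσb, hab⟩ := hL.n1
  have hxy : G.Adj x y := (hL.nb y).mpr (Or.inl rfl)
  have hxs : G.Adj x s := (hL.nb s).mpr (Or.inr (Or.inl rfl))
  have hxσ : G.Adj x σ := (hL.nb σ).mpr (Or.inr (Or.inr (Or.inl rfl)))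
  have hxa : G.Adj x a := (hL.nb a).mpr (Or.inr (Or.inr (Or.inr (Or.inl rfl))))
  have hxb : G.Adj x b := (hL.nb b).mpr (Or.inr (Or.inr (Or.inr (Or.inr rfl))))
  have h8 := hbh.n8
  have hle : ∀ u v, G.Adj u v → (ae G a b).Adj u v := fun u v h => Or.inl h
  have huniv : (Set.univ : Set V).ncard = Nat.card V := Set.ncard_univ V
  have hcard3 : ({x, s, σ} : Set V).ncard ≤ 3 := by
    refine (Set.ncard_insert_le _ _).trans ?_
    have := Set.ncard_insert_le s ({σ} : Set V)
    rw [Set.ncard_singleton] at this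
    omega
  refine ⟨?_, ?_⟩
  · have := Set.ncard_add_ncard_compl ({x, s, σ} : Set V)
    omega
  · intro X hX
    by_contra hncon
    have hWc : ({x, s, σ} : Set V)ᶜ \ X = ({x, s, σ} ∪ X)ᶜ := by
      rw [Set.compl_union]; rfl
    -- the five deleted vertices
    have h5 : 4 < ({x, s, σ} ∪ X : Set V).ncard := by
      by_contra h
      apply hncon
      rw [hWc]
      exact con_mono_graph hle (hbh.kc _ (not_lt.mp h))
    have hXle := Set.ncard_union_le ({x, s, σ} : Set V) X
    have hX2 : X.ncard = 2 := by omega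
    have h35 : ({x, s, σ} ∪ X : Set V).ncard = ({x, s, σ} : Set V).ncard + X.ncard := by omega
    have hdis : Disjoint ({x, s, σ} : Set V) X := by
      have h1 := Set.ncard_union_add_ncard_inter ({x, s, σ} : Set V) X
      have h2 : ({x, s, σ} ∩ X : Set V).ncard = 0 := by omega
      rw [Set.ncard_eq_zero (Set.toFinite _)] at h2
      exact Set.disjoint_iff_inter_eq_empty.mpr h2
    obtain ⟨c, d, hcd, rfl⟩ := Set.ncard_eq_two.mp hX2
    have hdl : ∀ v, v ∈ ({x, s, σ} : Set V) → v ∉ ({c, d} : Set V) := fun v h1 h2 =>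
      Set.disjoint_left.mp hdis h1 h2
    have hxc : x ≠ c := fun h => hdl x (by simp) (by simp [h])
    have hxd : x ≠ d := fun h => hdl x (by simp) (by simp [h])
    have hsc : s ≠ c := fun h => hdl s (by simp) (by simp [h])
    have hsd : s ≠ d := fun h => hdl s (by simp) (by simp [h])
    have hσc : σ ≠ c := fun h => hdl σ (by simp) (by simp [h])
    have hσd : σ ≠ d := fun h => hdl σ (by simp) (by simp [h])
    have hWne : (({x, s, σ} : Set V)ᶜ \ {c, d}).Nonempty := by
      rw [hWc]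
      rw [Set.nonempty_compl]
      intro h
      rw [h, huniv] at h35
      omega
    obtain ⟨K₁, K₂, hn1, hn2, hKd, hKU, hKe⟩ := split hWne hncon
    have hQcard : ({s, σ, c, d} : Set V).ncard = 4 := by
      rw [Set.ncard_insert_of_notMem (by simp [hsσ, hsc, hsd]),
        Set.ncard_insert_of_notMem (by simp [hσc, hσd]), Set.ncard_pair hcd]
    have hcon := hbh.kc {s, σ, c, d} hQcard.le
    have hK1W : ∀ v ∈ K₁, v ≠ x ∧ v ≠ s ∧ v ≠ σ ∧ v ≠ c ∧ v ≠ d := by
      intro v hv
      have : v ∈ ({x, s, σ} : Set V)ᶜ \ {c, d} := hKU ▸ Or.inl hv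
      simp only [Set.mem_sdiff, Set.mem_compl_iff, Set.mem_insert_iff, Set.mem_singleton_iff,
        not_or] at this
      tauto
    have hK2W : ∀ v ∈ K₂, v ≠ x ∧ v ≠ s ∧ v ≠ σ ∧ v ≠ c ∧ v ≠ d := by
      intro v hv
      have : v ∈ ({x, s, σ} : Set V)ᶜ \ {c, d} := hKU ▸ Or.inr hv
      simp only [Set.mem_sdiff, Set.mem_compl_iff, Set.mem_insert_iff, Set.mem_singleton_iff,
        not_or] at this
      tauto
    have hcovg : ∀ v, v ≠ x → v ≠ s → v ≠ σ → v ≠ c → v ≠ d → v ∈ K₁ ∨ v ∈ K₂ := by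
      intro v h1 h2 h3 h4 h5
      have : v ∈ K₁ ∪ K₂ := by
        rw [hKU]
        simp [h1, h2, h3, h4, h5]
      exact this
    -- the main argument
    have main : ∀ K L : Set V, K.Nonempty → L.Nonempty → Disjoint K L →
        (∀ v ∈ K, v ≠ x ∧ v ≠ s ∧ v ≠ σ ∧ v ≠ c ∧ v ≠ d) →
        (∀ v ∈ L, v ≠ x ∧ v ≠ s ∧ v ≠ σ ∧ v ≠ c ∧ v ≠ d) →
        (∀ v, v ≠ x → v ≠ s → v ≠ σ → v ≠ c → v ≠ d → v ∈ K ∨ v ∈ L) →
        (∀ u ∈ K, ∀ v ∈ L, ¬ (ae G a b).Adj u v) → y ∈ L → a ∉ L → b ∉ L → False := by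
      intro K L hK hL' hKL hKw hLw hcv hKe yL aL bL
      have hsep : Sep G {s, σ, c, d} x y (insert x K) L := by
        refine ⟨hQcard, ?_, ?_, Set.mem_insert _ _, yL, hxy, ?_⟩
        · ext v
          simp only [Set.mem_union, Set.mem_insert_iff, Set.mem_compl_iff, Set.mem_singleton_iff,
            not_or]
          constructor
          · rintro ((rfl | h) | h)
            · exact ⟨G.ne_of_adj hxs, G.ne_of_adj hxσ, hxc, hxd⟩
            · exact (hKw v h).2
            · exact (hLw v h).2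
          · rintro ⟨h1, h2, h3, h4⟩
            by_cases hvx : v = x
            · exact Or.inl (Or.inl hvx)
            · rcases hcv v hvx h1 h2 h3 h4 with h | h
              · exact Or.inl (Or.inr h)
              · exact Or.inr h
        · rw [Set.disjoint_left]
          rintro v (rfl | h) hv
          · exact (hLw _ hv).1 rfl
          · exact Set.disjoint_left.mp hKL h hv
        · rintro u (rfl | hu) v hv huv
          · refine ⟨rfl, ?_⟩
            rcases (hL.nb v).mp huv with h | h | h | h | h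
            · exact h
            · exact absurd h (hLw v hv).2.1
            · exact absurd h (hLw v hv).2.2.1
            · exact absurd (h ▸ hv) aL
            · exact absurd (h ▸ hv) bL
          · exact absurd (hle _ _ huv) (hKe u hu v hv)
      rcases hS c d _ _ hsep with h | h
      · obtain ⟨k, hk⟩ := hK
        have : k ∈ ({x} : Set V) := h ▸ Set.mem_insert_of_mem _ hk
        exact (hKw k hk).1 this
      · obtain ⟨-, -, hsep', -, -⟩ := hSPB V G _ _ _ x y hbh hsep
        obtain ⟨-, -, -, -, h5'⟩ := hSPB V G _ _ _ y x hbh hsep'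
        have hyσ' : G.Adj y σ := (h5' h σ).mpr (Or.inr (by simp))
        have hPn : Pn (dl G x y) {s}ᶜ := ⟨(hBAS V G hbh).2.2.2.2.1 s x y, hL.sv.2.2⟩
        apply hL.nc
        refine (hFNB V (dl G x y) {s}ᶜ hPn).2.2.2.2.2 y hys σ (fun h => hsσ h.symm) ?_
        refine ⟨hyσ', ?_, ?_⟩
        · rintro ⟨h1, -⟩
          exact G.ne_of_adj hxy h1.symm
        · rintro ⟨-, h2⟩
          exact G.ne_of_adj hxσ h2.symm
    -- neighbours of `x` in both parts
    have hnbK : ∀ K L : Set V, K.Nonempty → Disjoint K L →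
        (∀ v ∈ K, v ≠ x ∧ v ≠ s ∧ v ≠ σ ∧ v ≠ c ∧ v ≠ d) →
        (∀ v ∈ L, v ≠ x ∧ v ≠ s ∧ v ≠ σ ∧ v ≠ c ∧ v ≠ d) →
        (∀ v, v ≠ x → v ≠ s → v ≠ σ → v ≠ c → v ≠ d → v ∈ K ∨ v ∈ L) →
        (∀ u ∈ K, ∀ v ∈ L, ¬ (ae G a b).Adj u v) → y ∈ K ∨ a ∈ K ∨ b ∈ K := by
      intro K L hK hKL hKw hLw hcv hKe
      obtain ⟨u, hu, v, hv, huv⟩ := cross (A := K) (B := insert x L) hcon hK
        ⟨x, Set.mem_insert _ _⟩ (by
          rw [Set.disjoint_left]
          rintro v hv (rfl | h)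
          · exact (hKw _ hv).1 rfl
          · exact Set.disjoint_left.mp hKL hv h) (by
          ext v
          simp only [Set.mem_union, Set.mem_insert_iff, Set.mem_compl_iff, Set.mem_singleton_iff,
            not_or]
          constructor
          · rintro (h | (rfl | h))
            · exact (hKw v h).2
            · exact ⟨G.ne_of_adj hxs, G.ne_of_adj hxσ, hxc, hxd⟩
            · exact (hLw v h).2
          · rintro ⟨h1, h2, h3, h4⟩
            by_cases hvx : v = x
            · exact Or.inr (Or.inl hvx)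
            · rcases hcv v hvx h1 h2 h3 h4 with h | h
              · exact Or.inl h
              · exact Or.inr (Or.inr h))
      rcases hv with rfl | hv
      · rcases (hL.nb u).mp huv.symm with h | h | h | h | h
        · exact Or.inl (h ▸ hu)
        · exact absurd h (hKw u hu).2.1
        · exact absurd h (hKw u hu).2.2.1
        · exact Or.inr (Or.inl (h ▸ hu))
        · exact Or.inr (Or.inr (h ▸ hu))
      · exact absurd (hle _ _ huv) (hKe u hu v hv)
    have hKe' : ∀ u ∈ K₂, ∀ v ∈ K₁, ¬ (ae G a b).Adj u v := fun u hu v hv h =>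
      hKe v hv u hu h.symm
    have hcovg' : ∀ v, v ≠ x → v ≠ s → v ≠ σ → v ≠ c → v ≠ d → v ∈ K₂ ∨ v ∈ K₁ :=
      fun v h1 h2 h3 h4 h5 => (hcovg v h1 h2 h3 h4 h5).symm
    have r1 := hnbK K₁ K₂ hn1 hKd hK1W hK2W hcovg hKe
    have r2 := hnbK K₂ K₁ hn2 hKd.symm hK2W hK1W hcovg' hKe'
    have haeab : (ae G a b).Adj a b := Or.inr ⟨hab, Or.inl ⟨rfl, rfl⟩⟩
    have nab : ¬ (a ∈ K₁ ∧ b ∈ K₂) := fun h => hKe a h.1 b h.2 haeab
    have nba : ¬ (b ∈ K₁ ∧ a ∈ K₂) := fun h => hKe b h.1 a h.2 haeab.symm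
    have d1 : ∀ v, v ∈ K₁ → v ∉ K₂ := fun v h1 h2 => Set.disjoint_left.mp hKd h1 h2
    by_cases hyK : y ∈ K₂
    · have hy1 : y ∉ K₁ := fun h => d1 y h hyK
      refine main K₁ K₂ hn1 hn2 hKd hK1W hK2W hcovg hKe hyK ?_ ?_
      · intro ha2
        rcases r1 with h | h | h
        · exact hy1 h
        · exact d1 a h ha2
        · exact nba ⟨h, ha2⟩
      · intro hb2
        rcases r1 with h | h | h
        · exact hy1 h
        · exact nab ⟨h, hb2⟩
        · exact d1 b h hb2
    · have hyK1 : y ∈ K₁ := by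
        rcases r2 with h | h | h
        · exact absurd h hyK
        · rcases r1 with h' | h' | h'
          · exact h'
          · exact absurd h (d1 a h')
          · exact absurd ⟨h', h⟩ nba
        · rcases r1 with h' | h' | h'
          · exact h'
          · exact absurd ⟨h', h⟩ nab
          · exact absurd h (d1 b h')
      refine main K₂ K₁ hn2 hn1 hKd.symm hK2W hK1W hcovg' hKe' hyK1 ?_ ?_
      · intro ha1
        rcases r2 with h | h | h
        · exact hyK h
        · exact d1 a ha1 h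
        · exact nab ⟨ha1, h⟩
      · intro hb1
        rcases r2 with h | h | h
        · exact hyK h
        · exact nba ⟨hb1, h⟩
        · exact d1 b hb1 h

end Pool.Agent.Helper98.MA
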