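import Mathlib

set_option autoImplicit false

namespace Pool.Agent.Helper98.MA

open Finset

/-- Symmetric Cauchy-Binet formula. -/
theorem cb {ι : Type*} [Fintype ι] [DecidableEq ι] (n : ℕ) (v : ι → Fin n → ℝ) (t : ι → ℝ) :
    (n.factorial : ℝ) * (∑ i, t i • Matrix.vecMulVec (v i) (v i)).det =
      ∑ σ : Fin n → ι, (∏ a, t (σ a)) * (Matrix.of (fun a => v (σ a))).det ^ 2 := by
  classical
  have h1 : (∑ i, t i • Matrix.vecMulVec (v i) (v i)).det =
      ∑ σ : Fin n → ι, (∏ a, t (σ a)) * (∏ a, v (σ a) a) * (Matrix.of (fun a => v (σ a))).det := by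
    have e1 : (∑ i, t i • Matrix.vecMulVec (v i) (v i)) =
        fun a => ∑ i, (t i * v i a) • v i := by
      funext a b
      simp only [Matrix.sum_apply, Matrix.smul_apply, Matrix.vecMulVec_apply, smul_eq_mul,
        Finset.sum_apply, Pi.smul_apply]
      exact Finset.sum_congr rfl fun i _ => by ring
    rw [e1]
    have e2 := (Matrix.detRowAlternating (n := Fin n) (R := ℝ)).toMultilinearMap.map_sum
      (fun (a : Fin n) (i : ι) => (t i * v i a) • v i)
    change Matrix.detRowAlternating (fun a => ∑ i, (t i * v i a) • v i) = _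
    refine e2.trans ?_
    refine Finset.sum_congr rfl fun σ _ => ?_
    have e3 := (Matrix.detRowAlternating (n := Fin n) (R := ℝ)).toMultilinearMap.map_smul_univ
      (fun a => t (σ a) * v (σ a) a) (fun a => v (σ a))
    refine e3.trans ?_
    rw [Finset.prod_mul_distrib, smul_eq_mul]
    rfl
  have h2 : ∀ π : Equiv.Perm (Fin n),
      (∑ i, t i • Matrix.vecMulVec (v i) (v i)).det =
      ∑ σ : Fin n → ι, (∏ a, t (σ a)) * (((Equiv.Perm.sign π : ℤ) : ℝ) * ∏ a, v (σ (π a)) a) *
        (Matrix.of (fun a => v (σ a))).det := by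
    intro π
    rw [h1]
    rw [← (Equiv.arrowCongr π.symm (Equiv.refl ι)).sum_comp]
    refine Finset.sum_congr rfl fun σ _ => ?_
    have e1 : ∀ a, (Equiv.arrowCongr π.symm (Equiv.refl ι)) σ a = σ (π a) := fun a => rfl
    simp only [e1]
    have e2 : ∏ a, t (σ (π a)) = ∏ a, t (σ a) := Equiv.prod_comp π (fun a => t (σ a))
    have e3 : (Matrix.of (fun a => v (σ (π a)))).det =
        ((Equiv.Perm.sign π : ℤ) : ℝ) * (Matrix.of (fun a => v (σ a))).det := by
      have := Matrix.det_permute π (Matrix.of (fun a => v (σ a)))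
      rw [← this]
      rfl
    rw [e2, e3]
    ring
  have h3 : (n.factorial : ℝ) * (∑ i, t i • Matrix.vecMulVec (v i) (v i)).det =
      ∑ π : Equiv.Perm (Fin n), (∑ i, t i • Matrix.vecMulVec (v i) (v i)).det := by
    rw [Finset.sum_const, Finset.card_univ, Fintype.card_perm, Fintype.card_fin, nsmul_eq_mul]
  rw [h3, Finset.sum_congr rfl fun π _ => h2 π, Finset.sum_comm]
  refine Finset.sum_congr rfl fun σ _ => ?_
  rw [← Finset.sum_mul, ← Finset.mul_sum, sq, mul_assoc]
  congr 2
  rw [Matrix.det_apply']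
  refine Finset.sum_congr rfl fun π _ => ?_
  rfl

end Pool.Agent.Helper98.MA
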