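import Pool.Agent.Helper98.MA.CB

set_option autoImplicit false

namespace Pool.Agent.Helper98.MA

open Finset MeasureTheory

/-- Even profile functions. -/
structure Ev (q : ℝ → ℝ) : Prop where
  c1 : ContDiff ℝ 1 q
  even : ∀ t, q (-t) = q t
  anti : AntitoneOn q (Set.Ici 0)
  nn : ∀ t, 0 ≤ q t
  le : ∀ t, q t ≤ 1

/-- `sign t * log (q 0 / q t)`. -/
noncomputable def GG (q : ℝ → ℝ) (t : ℝ) : ℝ :=
  if 0 ≤ t then Real.log (q 0) - Real.log (q t) else -(Real.log (q 0) - Real.log (q t))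

theorem Ev.diff {q : ℝ → ℝ} (h : Ev q) : Differentiable ℝ q := h.c1.differentiable (by norm_num)

theorem Ev.dneg {q : ℝ → ℝ} (h : Ev q) (t : ℝ) : deriv q (-t) = -deriv q t := by
  have h1 : deriv (fun x => q (-x)) t = -deriv q (-t) := deriv_comp_neg q t
  have h2 : (fun x => q (-x)) = q := funext h.even
  rw [h2] at h1
  linarith

theorem Ev.dnonpos {q : ℝ → ℝ} (h : Ev q) {t : ℝ} (ht : 0 ≤ t) : deriv q t ≤ 0 := by
  rcases ht.eq_or_lt with h0 | h0
  · have := h.dneg 0
    rw [neg_zero] at this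
    rw [← h0]; linarith
  · have h1 : AntitoneOn q (Set.Ioi 0) := h.anti.mono Set.Ioi_subset_Ici_self
    have h2 : derivWithin q (Set.Ioi 0) t ≤ 0 := h1.derivWithin_nonpos
    rwa [derivWithin_of_isOpen isOpen_Ioi h0] at h2

theorem Ev.dnonneg {q : ℝ → ℝ} (h : Ev q) {t : ℝ} (ht : t ≤ 0) : 0 ≤ deriv q t := by
  have h1 := h.dnonpos (neg_nonneg.mpr ht)
  rw [h.dneg] at h1
  linarith

theorem Ev.q0 {q : ℝ → ℝ} (h : Ev q) (t : ℝ) : q t ≤ q 0 := by
  rcases le_total 0 t with ht | ht
  · exact h.anti (Set.mem_Ici.mpr le_rfl) ht ht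
  · rw [← h.even]
    exact h.anti (Set.mem_Ici.mpr le_rfl) (Set.mem_Ici.mpr (neg_nonneg.mpr ht)) (neg_nonneg.mpr ht)

theorem Ev.dzero {q : ℝ → ℝ} (h : Ev q) {t : ℝ} (ht : q t = 0) : deriv q t = 0 := by
  have : IsLocalMin q t := Filter.Eventually.of_forall fun s => by rw [ht]; exact h.nn s
  exact this.deriv_eq_zero

theorem Ev.GG_abs {q : ℝ → ℝ} (h : Ev q) {t : ℝ} (ht : 0 < q t) :
    |GG q t| = Real.log (q 0) - Real.log (q t) := by
  have h1 : 0 ≤ Real.log (q 0) - Real.log (q t) :=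
    sub_nonneg.mpr (Real.log_le_log ht (h.q0 t))
  unfold GG
  split_ifs
  · exact abs_of_nonneg h1
  · rw [abs_neg, abs_of_nonneg h1]

theorem Ev.q_le {q : ℝ → ℝ} (h : Ev q) {t : ℝ} (ht : 0 < q t) :
    q t ≤ Real.exp (-|GG q t|) := by
  rw [h.GG_abs ht, neg_sub, Real.exp_sub, Real.exp_log ht,
    Real.exp_log (lt_of_lt_of_le ht (h.q0 t))]
  rw [le_div_iff₀ (lt_of_lt_of_le ht (h.q0 t))]
  calc q t * q 0 ≤ q t * 1 := mul_le_mul_of_nonneg_left (h.le 0) ht.le
    _ = q t := mul_one _

theorem Ev.hasDerivAt_GG {q : ℝ → ℝ} (h : Ev q) {t : ℝ} (ht : 0 < q t) :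
    HasDerivAt (GG q) (|deriv q t| / q t) t := by
  have hlog : HasDerivAt (fun s => Real.log (q 0) - Real.log (q s)) (-(deriv q t / q t)) t := by
    have h1 := (h.diff t).hasDerivAt.log ht.ne'
    simpa using h1.const_sub (Real.log (q 0))
  rcases lt_trichotomy t 0 with h0 | h0 | h0
  · have e : GG q =ᶠ[nhds t] fun s => -(Real.log (q 0) - Real.log (q s)) := by
      filter_upwards [Iio_mem_nhds h0] with s hs
      unfold GG
      rw [if_neg (not_le.mpr hs)]
    refine HasDerivAt.congr_of_eventuallyEq ?_ e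
    have := hlog.neg
    rw [neg_neg] at this
    rwa [abs_of_nonneg (h.dnonneg h0.le)]
  · have hd : deriv q t = 0 := by
      have h1 := h.dnonneg h0.le
      have h2 := h.dnonpos h0.ge
      linarith
    rw [hd, abs_zero, zero_div]
    rw [hd, zero_div, neg_zero] at hlog
    rw [hasDerivAt_iff_isLittleO] at hlog ⊢
    refine Asymptotics.isLittleO_norm_left.1 ((Asymptotics.isLittleO_norm_left.2 hlog).congr_left
      fun s => ?_)
    have e0 : GG q t = 0 := by unfold GG; rw [h0, if_pos le_rfl, sub_self]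
    rw [smul_zero, sub_zero, sub_zero, e0, sub_zero, h0, sub_self, sub_zero]
    unfold GG
    split_ifs
    · rfl
    · rw [norm_neg]
  · have e : GG q =ᶠ[nhds t] fun s => (Real.log (q 0) - Real.log (q s)) := by
      filter_upwards [Ioi_mem_nhds h0] with s hs
      unfold GG
      rw [if_pos (le_of_lt hs)]
    refine HasDerivAt.congr_of_eventuallyEq ?_ e
    rw [abs_of_nonpos (h.dnonpos h0.le), neg_div]
    exact hlog

/-- `GG` is nondecreasing on the set where `q > 0`. -/
theorem Ev.GG_mono {q : ℝ → ℝ} (h : Ev q) {s t : ℝ} (hs : 0 < q s) (ht : 0 < q t) (hst : s ≤ t) :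
    GG q s ≤ GG q t := by
  have e : ∀ u, 0 < q u → 0 ≤ Real.log (q 0) - Real.log (q u) := fun u hu =>
    sub_nonneg.mpr (Real.log_le_log hu (h.q0 u))
  unfold GG
  split_ifs with h1 h2 h2
  · have := Real.log_le_log ht (h.anti h1 h2 hst)
    linarith
  · exact absurd (h1.trans hst) h2
  · have := e s hs
    have := e t ht
    linarith
  · have h3 : q s ≤ q t := by
      rw [← h.even s, ← h.even t]
      exact h.anti (Set.mem_Ici.mpr (by linarith)) (Set.mem_Ici.mpr (by linarith)) (by linarith)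
    have := Real.log_le_log hs h3
    linarith

/-- positivity is inherited towards the centre -/
theorem Ev.pos_between {q : ℝ → ℝ} (h : Ev q) {s t u : ℝ} (hs : 0 < q s) (ht : 0 < q t)
    (h1 : s ≤ u) (h2 : u ≤ t) : 0 < q u := by
  rcases le_total 0 u with hu | hu
  · exact lt_of_lt_of_le ht (h.anti (Set.mem_Ici.mpr hu) (Set.mem_Ici.mpr (hu.trans h2)) h2)
  · refine lt_of_lt_of_le hs ?_
    rw [← h.even s, ← h.even u]
    exact h.anti (Set.mem_Ici.mpr (by linarith)) (Set.mem_Ici.mpr (by linarith)) (by linarith)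

/-- if `GG q s = GG q t`, `s ≠ t`, then the derivative vanishes at `s` -/
theorem Ev.dzero_of_eq {q : ℝ → ℝ} (h : Ev q) {s t : ℝ} (hs : 0 < q s) (ht : 0 < q t)
    (hst : s ≠ t) (he : GG q s = GG q t) : |deriv q s| / q s = 0 := by
  have hd := h.hasDerivAt_GG hs
  rcases lt_or_gt_of_ne hst with h1 | h1
  · have h2 : HasDerivWithinAt (GG q) 0 (Set.Icc s t) s := by
      refine (hasDerivWithinAt_const s (Set.Icc s t) (GG q s)).congr ?_ rfl
      intro u hu
      have hu0 := h.pos_between hs ht hu.1 hu.2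
      exact le_antisymm ((h.GG_mono hu0 ht hu.2).trans he.ge) (h.GG_mono hs hu0 hu.1)
    exact (uniqueDiffOn_Icc h1 s ⟨le_rfl, h1.le⟩).eq_deriv _ hd.hasDerivWithinAt h2
  · have h2 : HasDerivWithinAt (GG q) 0 (Set.Icc t s) s := by
      refine (hasDerivWithinAt_const s (Set.Icc t s) (GG q s)).congr ?_ rfl
      intro u hu
      have hu0 := h.pos_between ht hs hu.1 hu.2
      exact le_antisymm (h.GG_mono hu0 hs hu.2) (he.le.trans (h.GG_mono ht hu0 hu.1))
    exact (uniqueDiffOn_Icc h1 s ⟨h1.le, le_rfl⟩).eq_deriv _ hd.hasDerivWithinAt h2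

section main

variable {ι : Type*} [Fintype ι] [DecidableEq ι] {n : ℕ}

/-- the linear functionals -/
def Lf (v : ι → Fin n → ℝ) (i : ι) (h : Fin n → ℝ) : ℝ := ∑ a, v i a * h a

/-- the gradient map -/
noncomputable def yy (v : ι → Fin n → ℝ) (q : ι → ℝ → ℝ) (h : Fin n → ℝ) : Fin n → ℝ :=
  ∑ i, GG (q i) (Lf v i h) • v i

/-- its derivative -/
noncomputable def MM (v : ι → Fin n → ℝ) (q : ι → ℝ → ℝ) (h : Fin n → ℝ) :
    Matrix (Fin n) (Fin n) ℝ :=
  ∑ i, (|deriv (q i) (Lf v i h)| / q i (Lf v i h)) • Matrix.vecMulVec (v i) (v i)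

/-- the functional as a continuous linear map -/
noncomputable def Lc (v : ι → Fin n → ℝ) (i : ι) : (Fin n → ℝ) →L[ℝ] ℝ :=
  ∑ a, v i a • ContinuousLinearMap.proj a

theorem Lc_apply (v : ι → Fin n → ℝ) (i : ι) (h : Fin n → ℝ) : Lc v i h = Lf v i h := by
  simp [Lc, Lf, ContinuousLinearMap.sum_apply]

theorem hasFDerivAt_Lf (v : ι → Fin n → ℝ) (i : ι) (h : Fin n → ℝ) :
    HasFDerivAt (Lf v i) (Lc v i) h := by
  have := (Lc v i).hasFDerivAt (x := h)
  refine this.congr_of_eventuallyEq (Filter.Eventually.of_forall fun x => (Lc_apply v i x).symm)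

theorem continuous_Lf (v : ι → Fin n → ℝ) (i : ι) : Continuous (Lf v i) :=
  continuous_finset_sum _ fun a _ => continuous_const.mul (continuous_apply a)

theorem MM_mulVec (v : ι → Fin n → ℝ) (q : ι → ℝ → ℝ) (h k : Fin n → ℝ) :
    (MM v q h).mulVec k =
      ∑ i, ((|deriv (q i) (Lf v i h)| / q i (Lf v i h)) * Lf v i k) • v i := by
  funext a
  unfold MM
  rw [Matrix.sum_mulVec]
  simp only [Finset.sum_apply, Pi.smul_apply, smul_eq_mul]
  refine Finset.sum_congr rfl fun i _ => ?_
  rw [Matrix.smul_mulVec, Pi.smul_apply, smul_eq_mul]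
  simp only [Matrix.mulVec, dotProduct, Matrix.vecMulVec_apply, Lf]
  rw [Finset.mul_sum, Finset.mul_sum, Finset.sum_mul]
  exact Finset.sum_congr rfl fun b _ => by ring

theorem hasFDerivAt_yy (v : ι → Fin n → ℝ) (q : ι → ℝ → ℝ) (hq : ∀ i, Ev (q i))
    (h : Fin n → ℝ) (hh : ∀ i, 0 < q i (Lf v i h)) :
    HasFDerivAt (yy v q) (LinearMap.toContinuousLinearMap (Matrix.toLin' (MM v q h))) h := by
  have h1 : ∀ i, HasFDerivAt (fun x => GG (q i) (Lf v i x) • v i)
      (((|deriv (q i) (Lf v i h)| / q i (Lf v i h)) • Lc v i).smulRight (v i)) h := by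
    intro i
    have h2 := ((hq i).hasDerivAt_GG (hh i)).comp_hasFDerivAt h (hasFDerivAt_Lf v i h)
    exact h2.smul_const (v i)
  have h3 : HasFDerivAt (yy v q)
      (∑ i, ((|deriv (q i) (Lf v i h)| / q i (Lf v i h)) • Lc v i).smulRight (v i)) h := by
    have := HasFDerivAt.fun_sum (u := univ) fun i _ => h1 i
    exact this
  convert h3 using 1
  ext k a
  simp only [LinearMap.coe_toContinuousLinearMap', Matrix.toLin'_apply, MM_mulVec,
    ContinuousLinearMap.sum_apply, ContinuousLinearMap.smulRight_apply,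
    ContinuousLinearMap.smul_apply, Lc_apply, smul_eq_mul]

theorem injOn_yy (v : ι → Fin n → ℝ) (q : ι → ℝ → ℝ) (hq : ∀ i, Ev (q i)) :
    Set.InjOn (yy v q) {h | (∀ i, 0 < q i (Lf v i h)) ∧ 0 < (MM v q h).det} := by
  intro h hh k hk he
  have hlin : ∀ i, Lf v i h - Lf v i k = Lf v i (h - k) := by
    intro i
    simp only [Lf, Pi.sub_apply, mul_sub, Finset.sum_sub_distrib]
  have h1 : ∑ i, (GG (q i) (Lf v i h) - GG (q i) (Lf v i k)) * (Lf v i h - Lf v i k) = 0 := by
    have e : ∑ i, (GG (q i) (Lf v i h) - GG (q i) (Lf v i k)) * (Lf v i h - Lf v i k) =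
        ∑ a, (yy v q h a - yy v q k a) * (h - k) a := by
      simp only [yy, Finset.sum_apply, Pi.smul_apply, smul_eq_mul, hlin]
      simp only [← Finset.sum_sub_distrib, Finset.sum_mul]
      rw [Finset.sum_comm]
      refine Finset.sum_congr rfl fun i _ => ?_
      simp only [Lf, Finset.mul_sum]
      exact Finset.sum_congr rfl fun a _ => by ring
    rw [e, he]
    simp
  have h2 : ∀ i ∈ univ, 0 ≤ (GG (q i) (Lf v i h) - GG (q i) (Lf v i k)) *
      (Lf v i h - Lf v i k) := by
    intro i _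
    rcases le_total (Lf v i h) (Lf v i k) with hl | hl
    · have := (hq i).GG_mono (hh.1 i) (hk.1 i) hl
      exact mul_nonneg_of_nonpos_of_nonpos (by linarith) (by linarith)
    · have := (hq i).GG_mono (hk.1 i) (hh.1 i) hl
      exact mul_nonneg (by linarith) (by linarith)
  have h3 := (Finset.sum_eq_zero_iff_of_nonneg h2).1 h1
  have h4 : (MM v q h).mulVec (h - k) = 0 := by
    rw [MM_mulVec]
    refine Finset.sum_eq_zero fun i _ => ?_
    by_cases hik : Lf v i h = Lf v i k
    · rw [← hlin, hik, sub_self, mul_zero, zero_smul]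
    · have h5 : GG (q i) (Lf v i h) = GG (q i) (Lf v i k) := by
        rcases mul_eq_zero.1 (h3 i (mem_univ i)) with h6 | h6
        · linarith
        · exact absurd (sub_eq_zero.1 h6) hik
      rw [(hq i).dzero_of_eq (hh.1 i) (hk.1 i) hik h5, zero_mul, zero_smul]
  have h5 := Matrix.eq_zero_of_mulVec_eq_zero hh.2.ne' h4
  exact sub_eq_zero.1 h5

/-- the integrand of Lemma C -/
noncomputable def LC (v : ι → Fin n → ℝ) (q : ι → ℝ → ℝ) (h : Fin n → ℝ) : ℝ :=
  ∑ σ : Fin n → ι, (Matrix.of (fun a => v (σ a))).det ^ 2 *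
    ((∏ a, |deriv (q (σ a)) (Lf v (σ a) h)|) *
      ∏ i ∈ univ.filter (fun i => ∀ a, σ a ≠ i), q i (Lf v i h))

theorem LC_nonneg (v : ι → Fin n → ℝ) (q : ι → ℝ → ℝ) (hq : ∀ i, Ev (q i)) (h : Fin n → ℝ) :
    0 ≤ LC v q h := by
  refine Finset.sum_nonneg fun σ _ => mul_nonneg (sq_nonneg _) (mul_nonneg
    (Finset.prod_nonneg fun a _ => abs_nonneg _) (Finset.prod_nonneg fun i _ => (hq i).nn _))

theorem det_nonneg (v : ι → Fin n → ℝ) (q : ι → ℝ → ℝ) (hq : ∀ i, Ev (q i)) (h : Fin n → ℝ) :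
    0 ≤ (MM v q h).det := by
  have h1 := cb n v (fun i => |deriv (q i) (Lf v i h)| / q i (Lf v i h))
  have h2 : 0 ≤ (n.factorial : ℝ) * (MM v q h).det := by
    unfold MM
    rw [h1]
    exact Finset.sum_nonneg fun σ _ => mul_nonneg (Finset.prod_nonneg fun a _ =>
      div_nonneg (abs_nonneg _) ((hq _).nn _)) (sq_nonneg _)
  exact nonneg_of_mul_nonneg_right h2 (by exact_mod_cast n.factorial_pos)

theorem LC_zero (v : ι → Fin n → ℝ) (q : ι → ℝ → ℝ) (hq : ∀ i, Ev (q i)) (h : Fin n → ℝ)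
    (hh : ¬ ∀ i, 0 < q i (Lf v i h)) : LC v q h = 0 := by
  push_neg at hh
  obtain ⟨i, hi⟩ := hh
  have hi0 : q i (Lf v i h) = 0 := le_antisymm hi ((hq i).nn _)
  refine Finset.sum_eq_zero fun σ _ => ?_
  by_cases hs : ∃ a, σ a = i
  · obtain ⟨a, ha⟩ := hs
    have : ∏ a, |deriv (q (σ a)) (Lf v (σ a) h)| = 0 :=
      Finset.prod_eq_zero (mem_univ a) (by rw [ha, (hq i).dzero hi0, abs_zero])
    rw [this, zero_mul, mul_zero]
  · push_neg at hs
    have : ∏ i ∈ univ.filter (fun i => ∀ a, σ a ≠ i), q i (Lf v i h) = 0 :=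
      Finset.prod_eq_zero (mem_filter.2 ⟨mem_univ i, hs⟩) hi0
    rw [this, mul_zero, mul_zero]

theorem LC_eq (v : ι → Fin n → ℝ) (q : ι → ℝ → ℝ) (h : Fin n → ℝ)
    (hh : ∀ i, 0 < q i (Lf v i h)) :
    LC v q h = (∏ i, q i (Lf v i h)) * ((n.factorial : ℝ) * (MM v q h).det) := by
  unfold MM
  rw [cb n v (fun i => |deriv (q i) (Lf v i h)| / q i (Lf v i h)), Finset.mul_sum]
  refine Finset.sum_congr rfl fun σ _ => ?_
  by_cases hs : Function.Injective σ
  · have e1 : ∏ i, q i (Lf v i h) =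
        (∏ a, q (σ a) (Lf v (σ a) h)) *
          ∏ i ∈ univ.filter (fun i => ∀ a, σ a ≠ i), q i (Lf v i h) := by
      have e2 : (univ : Finset ι) = (univ.image σ) ∪ univ.filter (fun i => ∀ a, σ a ≠ i) := by
        ext i
        simp only [mem_univ, mem_union, mem_image, true_and, mem_filter, true_iff]
        by_cases hi : ∃ a, σ a = i
        · exact Or.inl hi
        · exact Or.inr (by push_neg at hi; exact hi)
      have e3 : Disjoint (univ.image σ) (univ.filter (fun i => ∀ a, σ a ≠ i)) := by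
        rw [Finset.disjoint_left]
        intro i hi hi'
        obtain ⟨a, _, ha⟩ := mem_image.1 hi
        exact (mem_filter.1 hi').2 a ha
      conv_lhs => rw [e2]
      rw [Finset.prod_union e3, Finset.prod_image fun a _ b _ hab => hs hab]
    have e4 : ∏ a, |deriv (q (σ a)) (Lf v (σ a) h)| =
        (∏ a, q (σ a) (Lf v (σ a) h)) *
          ∏ a, (|deriv (q (σ a)) (Lf v (σ a) h)| / q (σ a) (Lf v (σ a) h)) := by
      rw [← Finset.prod_mul_distrib]
      refine Finset.prod_congr rfl fun a _ => ?_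
      rw [mul_div_cancel₀ _ (hh (σ a)).ne']
    rw [e1, e4]
    ring
  · have e1 : (Matrix.of (fun a => v (σ a))).det = 0 := by
      rw [Function.Injective] at hs
      push_neg at hs
      obtain ⟨a, b, hab, hne⟩ := hs
      exact Matrix.det_zero_of_row_eq hne (by
        funext c
        simp only [Matrix.of_apply, hab])
    rw [e1]
    ring

theorem measurable_MM (v : ι → Fin n → ℝ) (q : ι → ℝ → ℝ) (hq : ∀ i, Ev (q i)) :
    Measurable fun h => (MM v q h).det := by
  have h1 : ∀ a b, Measurable fun h => MM v q h a b := by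
    intro a b
    unfold MM
    simp only [Matrix.sum_apply, Matrix.smul_apply, Matrix.vecMulVec_apply, smul_eq_mul]
    refine Finset.measurable_sum _ fun i _ => ?_
    refine Measurable.mul_const ?_ _
    refine Measurable.div ?_ ?_
    · exact ((measurable_deriv (q i)).comp (continuous_Lf v i).measurable).norm
    · exact ((hq i).c1.continuous.comp (continuous_Lf v i)).measurable
  simp only [Matrix.det_apply']
  refine Finset.measurable_sum _ fun π _ => ?_
  exact Measurable.const_mul (Finset.measurable_prod _ fun a _ => h1 _ _) _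

theorem lemC (v : ι → Fin n → ℝ) (q : ι → ℝ → ℝ) (hq : ∀ i, Ev (q i)) (N : (Fin n → ℝ) → ℝ)
    (hN : ∀ b : ι → ℝ, N (∑ i, b i • v i) ≤ ∑ i, |b i|) :
    ∫⁻ h, ENNReal.ofReal (LC v q h) ≤
      (n.factorial : ENNReal) * ∫⁻ y, ENNReal.ofReal (Real.exp (-N y)) := by
  set S : Set (Fin n → ℝ) := {h | (∀ i, 0 < q i (Lf v i h)) ∧ 0 < (MM v q h).det} with hS
  have hSm : MeasurableSet S := by
    have e : S = (⋂ i, {h | 0 < q i (Lf v i h)}) ∩ {h | 0 < (MM v q h).det} := by
      ext h
      simp [hS]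
    rw [e]
    refine MeasurableSet.inter (MeasurableSet.iInter fun i => ?_) ?_
    · exact measurableSet_lt measurable_const
        (((hq i).c1.continuous.comp (continuous_Lf v i)).measurable)
    · exact measurableSet_lt measurable_const (measurable_MM v q hq)
  have h1 := lintegral_image_eq_lintegral_abs_det_fderiv_mul volume hSm
    (fun h hh => (hasFDerivAt_yy v q hq h hh.1).hasFDerivWithinAt) (injOn_yy v q hq)
    (fun y => ENNReal.ofReal (Real.exp (-N y)))
  have h2 : ∀ h, ENNReal.ofReal (LC v q h) ≤ (n.factorial : ENNReal) *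
      S.indicator (fun h => ENNReal.ofReal
        |(LinearMap.toContinuousLinearMap (Matrix.toLin' (MM v q h))).det| *
          ENNReal.ofReal (Real.exp (-N (yy v q h)))) h := by
    intro h
    by_cases hh : ∀ i, 0 < q i (Lf v i h)
    · by_cases hd : 0 < (MM v q h).det
      · rw [Set.indicator_of_mem (show h ∈ S from ⟨hh, hd⟩)]
        have e1 : (LinearMap.toContinuousLinearMap (Matrix.toLin' (MM v q h))).det =
            (MM v q h).det := by
          rw [ContinuousLinearMap.det, LinearMap.coe_toContinuousLinearMap]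
          exact LinearMap.det_toLin' _
        rw [e1, abs_of_pos hd, ← ENNReal.ofReal_mul hd.le, LC_eq v q h hh,
          ← ENNReal.ofReal_natCast, ← ENNReal.ofReal_mul (Nat.cast_nonneg _)]
        refine ENNReal.ofReal_le_ofReal ?_
        have e2 : ∏ i, q i (Lf v i h) ≤ Real.exp (-N (yy v q h)) := by
          calc ∏ i, q i (Lf v i h) ≤ ∏ i, Real.exp (-|GG (q i) (Lf v i h)|) :=
                Finset.prod_le_prod (fun i _ => (hh i).le) fun i _ => (hq i).q_le (hh i)
            _ = Real.exp (∑ i, -|GG (q i) (Lf v i h)|) := (Real.exp_sum _ _).symm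
            _ ≤ Real.exp (-N (yy v q h)) := by
                refine Real.exp_le_exp.2 ?_
                rw [Finset.sum_neg_distrib]
                exact neg_le_neg (hN _)
        have e3 : 0 ≤ (n.factorial : ℝ) * (MM v q h).det := by positivity
        calc (∏ i, q i (Lf v i h)) * ((n.factorial : ℝ) * (MM v q h).det)
            ≤ Real.exp (-N (yy v q h)) * ((n.factorial : ℝ) * (MM v q h).det) :=
              mul_le_mul_of_nonneg_right e2 e3
          _ = _ := by ring
      · have : (MM v q h).det = 0 := le_antisymm (not_lt.1 hd) (det_nonneg v q hq h)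
        rw [LC_eq v q h hh, this, mul_zero, mul_zero, ENNReal.ofReal_zero]
        exact bot_le
    · rw [LC_zero v q hq h hh, ENNReal.ofReal_zero]
      exact bot_le
  calc ∫⁻ h, ENNReal.ofReal (LC v q h)
      ≤ ∫⁻ h, (n.factorial : ENNReal) * S.indicator (fun h => ENNReal.ofReal
        |(LinearMap.toContinuousLinearMap (Matrix.toLin' (MM v q h))).det| *
          ENNReal.ofReal (Real.exp (-N (yy v q h)))) h := lintegral_mono h2
    _ = (n.factorial : ENNReal) * ∫⁻ h, S.indicator (fun h => ENNReal.ofReal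
        |(LinearMap.toContinuousLinearMap (Matrix.toLin' (MM v q h))).det| *
          ENNReal.ofReal (Real.exp (-N (yy v q h)))) h :=
        lintegral_const_mul' _ _ (ENNReal.natCast_ne_top _)
    _ = (n.factorial : ENNReal) * ∫⁻ h in S, ENNReal.ofReal
        |(LinearMap.toContinuousLinearMap (Matrix.toLin' (MM v q h))).det| *
          ENNReal.ofReal (Real.exp (-N (yy v q h))) := by rw [lintegral_indicator hSm]
    _ = (n.factorial : ENNReal) * ∫⁻ y in yy v q '' S, ENNReal.ofReal (Real.exp (-N y)) := by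
        rw [h1]
    _ ≤ _ := mul_le_mul_right (setLIntegral_le_lintegral _ _) _

end main

end Pool.Agent.Helper98.MA
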