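import Pool.Agent.Helper98.MA.LemC
import Pool.Agent.Helper25.MC.Defs

set_option autoImplicit false

namespace Pool.Agent.Helper98.MA

open Finset MeasureTheory

theorem LC_eq_GI {n m : ℕ} (v : Fin m → Fin n → ℝ) (q : Fin m → ℝ → ℝ) (h : Fin n → ℝ) :
    LC v q h = MC.GI v (fun i => q i (∑ j, v i j * h j))
      (fun i => |deriv (q i) (∑ j, v i j * h j)|) := by
  unfold LC MC.GI
  refine Finset.sum_congr rfl fun s _ => ?_
  by_cases hs : Function.Injective s
  · rw [if_pos hs]
    unfold MC.dt MC.cpl Lf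
    rw [mul_assoc]
  · rw [if_neg hs]
    have e1 : (Matrix.of (fun a => v (s a))).det = 0 := by
      rw [Function.Injective] at hs
      push Not at hs
      obtain ⟨a, b, hab, hne⟩ := hs
      exact Matrix.det_zero_of_row_eq hne (by
        funext c
        simp only [Matrix.of_apply, hab])
    rw [e1]
    ring

/-- Lemma C for the functional `GI`. -/
theorem lemCG {n m : ℕ} (v : Fin m → Fin n → ℝ) (q : Fin m → ℝ → ℝ) (hq : ∀ i, Ev (q i))
    (N : (Fin n → ℝ) → ℝ) (hN : ∀ b : Fin m → ℝ, N (∑ i, b i • v i) ≤ ∑ i, |b i|) :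
    ∫⁻ h : Fin n → ℝ, ENNReal.ofReal (MC.GI v (fun i => q i (∑ j, v i j * h j))
      (fun i => |deriv (q i) (∑ j, v i j * h j)|)) ≤
      (n.factorial : ENNReal) * ∫⁻ y, ENNReal.ofReal (Real.exp (-N y)) := by
  have := lemC v q hq N hN
  simpa only [LC_eq_GI] using this

end Pool.Agent.Helper98.MA
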